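import Pool.Agent.Q147.LG.PInst
import Pool.Agent.Q147.SP.FewX

/-!
# `p`-adic Schanuel conjecture: relations between logarithms with few monomials

Let `W` be a space of dimension `N` over the field `ℚ̄` of algebraic numbers which consists of linear
forms, with algebraic coefficients, in `1` and `p`-adic logarithms of algebraic numbers.

(1) The tuples `y ∈ W ^ m`, `m ≥ 2`, with `1, y_1, ..., y_m` linearly independent over `ℚ̄` which
satisfy a nontrivial algebraic relation of degree at most `D` with at most `k` monomials lie in an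
algebraic subset of dimension at most `(m - 2) N + m (m - 1) + k - 1`; for pairs the dimension is at
most `k + 1`.  It does not depend on the degree `D`.

(2) For relations `F (y ^ μ_1, ..., y ^ μ_r) = 0` between given multiplicatively independent monomials,
`F` of degree at most `a_i` in the `i`-th variable, the dimension is less than
`(m - 2) N + (m ^ 2 + (m + 1) 2 ^ (r - 1)) ∏ (⌊√a_i⌋ + 1)`, whatever the degrees of the monomials are.

(3) Let `x_1, ..., x_n` be elements of the algebraic closure of `ℚ_p`.  Consider the tuples `y ∈ W ^ m`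
with nonzero coordinates such that `x` together with any `s` independent linear combinations of the
`y_i` is algebraically independent (`0 ≤ s < m`), but `(x, y)` satisfies a relation of degree at
most `D` with at most `k` monomials.  They have dimension at most
`(m - 1 - s) N + m (m - 1) + k - 1`.

(4) In (3), for relations with exponents in an ARBITRARY finite set `A` the dimension is at most
`(m - 1 - s) N + max (m (m h - 1) + ⌊(|A + B| - |B|) / h⌋, m (m - 1) + |B| - 1)`
for every finite set `B` and every `h ≥ 1` with `m h ≤ |B|`.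

The earlier results `MP_c50dba_nt.BoundedDegreeStrata` and `MP_c50dba_nt.SquareRootStrata` are about
sets `A` which are closed downwards, so that their bounds grow with the degree.

All parts contain the corresponding bounds for the number of tuples of logarithms
`y_i = ∑ a_ij l_j` with integers `|a_ij| ≤ H`.

The proof.  As for the earlier results (tangent vectors and the hyperplane case of the linear
subgroup theorem of Waldschmidt and Roy), but the number of linear relations between the partial
derivatives `(∂f/∂Y_i)(x, y)` is bounded in another way: for a relation `f` with the smallest number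
of monomials some `(∂f/∂Y_i)(x, y)` does not vanish, and derivations of the field which are dual to
`s` combinations of the `y_i` show that the vector of the `(∂f/∂Y_i)(x, y)` is not a combination of
`s` vectors with algebraic coordinates.
-/

set_option autoImplicit false

open scoped Pointwise

namespace Pool.Agent.Results.MP_c50dba_nt.FewMonomials

/-- `L` is the Iwasawa logarithm on the algebraic closure of `ℚ_p`. -/
structure IsIwasawaLog (p : ℕ) [Fact p.Prime] (L : PadicAlgCl p → PadicAlgCl p) : Prop where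
  mul : ∀ x y : PadicAlgCl p, x ≠ 0 → y ≠ 0 → L (x * y) = L x + L y
  prime : L ((p : ℕ) : PadicAlgCl p) = 0
  ser : ∀ z : PadicAlgCl p, ‖z‖ < 1 →
    HasSum (fun n : ℕ => (-1 : PadicAlgCl p) ^ n * z ^ (n + 1) / ((n : PadicAlgCl p) + 1))
      (L (1 + z))

/-- The space of all linear combinations with algebraic coefficients of `1` and of the values of `L`
at algebraic numbers. -/
noncomputable def LogForms {p : ℕ} [Fact p.Prime] (L : PadicAlgCl p → PadicAlgCl p) :
    Submodule (algebraicClosure ℚ (PadicAlgCl p)) (PadicAlgCl p) :=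
  Submodule.span (algebraicClosure ℚ (PadicAlgCl p))
    ({1} ∪ {z | ∃ α : PadicAlgCl p, α ≠ 0 ∧ IsAlgebraic ℚ α ∧ z = L α})

variable {p : ℕ} [Fact p.Prime]

/-- The numbers `z i` satisfy a nontrivial polynomial relation with algebraic coefficients whose
exponents belong to `A`. -/
def RelationIn {σ : Type} (A : Finset (σ →₀ ℕ)) (z : σ → PadicAlgCl p) : Prop :=
  ∃ f : MvPolynomial σ (algebraicClosure ℚ (PadicAlgCl p)), f ≠ 0 ∧ f.support ⊆ A ∧
    MvPolynomial.aeval z f = 0

/-- The numbers `z i` satisfy a nontrivial polynomial relation with algebraic coefficients, of total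
degree at most `D` and with at most `k` monomials. -/
def FewMonomialRelation {σ : Type} (D k : ℕ) (z : σ → PadicAlgCl p) : Prop :=
  ∃ f : MvPolynomial σ (algebraicClosure ℚ (PadicAlgCl p)), f ≠ 0 ∧ f.totalDegree ≤ D ∧
    f.support.card ≤ k ∧ MvPolynomial.aeval z f = 0

/-- The monomials `∏ j, y j ^ μ i j` satisfy a nontrivial polynomial relation with algebraic
coefficients of degree at most `a i` in the `i`-th variable. -/
def RelationBetweenMonomials {r m : ℕ} (μ : Fin r → (Fin m →₀ ℕ)) (a : Fin r → ℕ)
    (y : Fin m → PadicAlgCl p) : Prop :=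
  ∃ F : MvPolynomial (Fin r) (algebraicClosure ℚ (PadicAlgCl p)), F ≠ 0 ∧
    (∀ i, F.degreeOf i ≤ a i) ∧ MvPolynomial.aeval (fun i => ∏ j, y j ^ μ i j) F = 0

/-- The numbers `x i` together with `s` linear combinations of the `y j` with linearly independent
algebraic coefficient vectors are always algebraically independent. -/
def Free (s : ℕ) {n m : ℕ} (x : Fin n → PadicAlgCl p) (y : Fin m → PadicAlgCl p) : Prop :=
  ∀ u : Fin s → Fin m → algebraicClosure ℚ (PadicAlgCl p),
    LinearIndependent (algebraicClosure ℚ (PadicAlgCl p)) u →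
      AlgebraicIndependent (algebraicClosure ℚ (PadicAlgCl p))
        (Sum.elim x fun k => ∑ j, (u k j : PadicAlgCl p) * y j)

/-- The tuples with property `R` have dimension at most `q`: first, for every space `W` of linear
forms in `p`-adic logarithms of finite dimension `N`, the tuples `y ∈ W ^ m` with property `R` lie in
an algebraic subset of dimension at most `q N`, that is, any `q N + 1` linear forms satisfy a
nontrivial polynomial relation at all of them; secondly, for `ℚ`-linearly independent logarithms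
`l_1, ..., l_N` of algebraic numbers there are at most `κ H ^ (q N)` integer matrices `a` with entries
at most `H` for which the tuple `∑ a_ij l_j` has property `R`. -/
def DimensionAtMost (L : PadicAlgCl p → PadicAlgCl p) {m : ℕ} (q : ℕ → ℕ)
    (R : (Fin m → PadicAlgCl p) → Prop) : Prop :=
  (∀ (W : Submodule (algebraicClosure ℚ (PadicAlgCl p)) (PadicAlgCl p))
      [FiniteDimensional (algebraicClosure ℚ (PadicAlgCl p)) W], W ≤ LogForms L →
    ∀ φ : Fin (q (Module.finrank (algebraicClosure ℚ (PadicAlgCl p)) W) + 1) →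
      ((Fin m → W) →ₗ[algebraicClosure ℚ (PadicAlgCl p)] algebraicClosure ℚ (PadicAlgCl p)),
    ∃ P : MvPolynomial (Fin (q (Module.finrank (algebraicClosure ℚ (PadicAlgCl p)) W) + 1))
        (algebraicClosure ℚ (PadicAlgCl p)), P ≠ 0 ∧
      ∀ y : Fin m → W, R (fun i => (y i : PadicAlgCl p)) →
        MvPolynomial.eval (fun k => φ k y) P = 0) ∧
  ∀ (N : ℕ) (l : Fin N → PadicAlgCl p),
    (∀ j, ∃ α : PadicAlgCl p, α ≠ 0 ∧ IsAlgebraic ℚ α ∧ l j = L α) → LinearIndependent ℚ l →
    ∃ κ : ℕ, ∀ H : ℕ, 1 ≤ H →
      Set.ncard {a : Fin m → Fin N → ℤ | (∀ i j, |a i j| ≤ H) ∧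
        R (fun i => ∑ j, (a i j : PadicAlgCl p) * l j)} ≤ κ * H ^ q N

open Pool.Agent.Q147.LG in
theorem of_thin {L : PadicAlgCl p → PadicAlgCl p} (hL : Pool.Agent.W245.PB.IsIwasawaLog p L)
    {m : ℕ} {q q' : ℕ → ℕ} {R : (Fin m → PadicAlgCl p) → Prop} {S : Set (Fin m → PadicAlgCl p)}
    (h : Thin (Pool.Agent.W254.PA.LtE (Pool.Agent.W254.PA.logs L)) q S)
    (hq : ∀ M, q M ≤ q' M + 1) (hR : ∀ y, R y → y ∈ S) : DimensionAtMost L q' R := by
  refine ⟨fun W _ hW φ => ?_, fun N l hl hli => ?_⟩
  · obtain ⟨P, h1, h2⟩ := dimP h hq W hW φ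
    exact ⟨P, h1, fun y hy => h2 y (hR _ hy)⟩
  · obtain ⟨κ, hκ⟩ := countP hL h hq l hl hli
    refine ⟨κ, fun H hH => le_trans (Set.ncard_le_ncard ?_ ?_) (hκ H hH)⟩
    · rintro a ⟨h1, h2⟩
      exact ⟨h1, hR _ h2⟩
    · exact (Pool.Agent.Y787.HS.box_finite m N H).subset fun a ha => ha.1

/-- **Main result.** -/
theorem result (p : ℕ) [Fact p.Prime] (L : PadicAlgCl p → PadicAlgCl p) (hL : IsIwasawaLog p L) :
    (∀ m k D : ℕ, 1 < m → 1 ≤ k →
      DimensionAtMost L (m := m) (fun N => (m - 2) * N + (m * (m - 1) + k - 1))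
        (fun y => LinearIndependent (algebraicClosure ℚ (PadicAlgCl p))
          (Fin.cons 1 y : Fin (m + 1) → PadicAlgCl p) ∧ FewMonomialRelation D k y)) ∧
    (∀ (r m : ℕ) (μ : Fin r → (Fin m →₀ ℕ)) (a : Fin r → ℕ), 1 < m → 0 < r →
      LinearIndependent ℤ (fun (i : Fin r) (j : Fin m) => (μ i j : ℤ)) →
      DimensionAtMost L
        (fun N => (m - 2) * N + (m ^ 2 + (m + 1) * 2 ^ (r - 1)) * ∏ i, (Nat.sqrt (a i) + 1) - 1)
        (fun y => LinearIndependent (algebraicClosure ℚ (PadicAlgCl p))
          (Fin.cons 1 y : Fin (m + 1) → PadicAlgCl p) ∧ RelationBetweenMonomials μ a y)) ∧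
    (∀ (n m s k D : ℕ), s < m → 1 ≤ k → ∀ x : Fin n → PadicAlgCl p,
      DimensionAtMost L (m := m) (fun N => (m - 1 - s) * N + (m * (m - 1) + k - 1))
        (fun y => (∀ i, y i ≠ 0) ∧ Free s x y ∧ FewMonomialRelation D k (Sum.elim x y))) ∧
    ∀ (n m s h c : ℕ) (A B : Finset ((Fin n ⊕ Fin m) →₀ ℕ)), s < m → 0 < h →
      m * h ≤ B.card → m * (m * h - 1) + ((A + B).card - B.card) / h ≤ c →
      m * (m - 1) + B.card ≤ c + 1 →
      ∀ x : Fin n → PadicAlgCl p, DimensionAtMost L (m := m) (fun N => (m - 1 - s) * N + c)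
        (fun y => (∀ i, y i ≠ 0) ∧ Free s x y ∧ RelationIn A (Sum.elim x y)) := by
  have hL' : Pool.Agent.W245.PB.IsIwasawaLog p L := ⟨hL.mul, hL.prime, hL.ser⟩
  have := Pool.Agent.Y787.hypC_padic hL'
  refine ⟨fun m k D hm hk => ?_, fun r m μ a hm hr hμ => ?_, fun n m s k D hs hk x => ?_,
    fun n m s h c A B hs hh hmB h1 h2 x => ?_⟩
  · refine of_thin hL' (Pool.Agent.Q147.SP.thin_few hm D k) (fun M => ?_)
      fun y hy => ⟨hy.1, hy.2⟩
    omega
  · refine of_thin hL' (Pool.Agent.Q147.SP.thin_mono hm hr μ hμ a) (fun M => ?_)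
      fun y hy => ⟨hy.1, hy.2⟩
    rw [Pool.Agent.Q147.LG.con, Pool.Agent.Q147.LG.num]
    omega
  · refine of_thin hL' (Pool.Agent.Q147.SP.thin_fewX hs D k x) (fun M => ?_)
      fun y hy => ⟨hy.2.2, hy.1, hy.2.1⟩
    omega
  · refine of_thin hL' (Pool.Agent.Q147.SP.thin_stratS (c := c + 1) hs hh A B (A + B)
      (fun s hs t ht => Finset.add_mem_add hs ht) hmB x ?_ h2) (fun M => le_rfl)
      fun y hy => ⟨hy.2.2, hy.1, hy.2.1⟩
    rw [mul_comm h m]
    omega

end Pool.Agent.Results.MP_c50dba_nt.FewMonomials
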