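import Pool.Agent.Q147.GP.TotLogs
import Pool.Agent.Y787.PInst

/-!
# The `p`-adic logarithms related to given ones in bounded degree form finitely many small spaces

Let `L` be the Iwasawa logarithm on the algebraic closure `C` of `ℚ_p` and let `LogForms L` be the
space of all linear forms, with algebraic coefficients, in `1` and values of `L` at algebraic numbers.
Let `x_1, ..., x_n ∈ C`, `n ≥ 1`, be algebraically independent over the field `ℚ̄` of algebraic numbers
and let `W ⊆ LogForms L` be a space of finite dimension over `ℚ̄`.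

**Theorem.** The `y ∈ W` for which `(x, y)` satisfies a nontrivial relation of total degree at most `D`
form a finite union of subspaces `U`. For each of them, `e` being the dimension of the sum of `U` and
of the space of all members of `LogForms L` which are linear combinations of `1, x_1, ..., x_n`, we
have

`q h (e - h) + e ≤ binom ((q + 1) D + n) n` for all `q` and all `h ≤ e`.

For `q = 1` this bounds `e` by about `2 ((2 D) ^ n / n!) ^ (1 / 2)`; for `n = 1` it says
`⌊e ^ 2 / 4⌋ ≤ D`.

**Corollary.** Let `λ_1, ..., λ_n` be algebraically independent logarithms of algebraic numbers and let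
`Λ` be a finitely generated group of logarithms of algebraic numbers. The `λ ∈ Λ` for which
`λ_1, ..., λ_n, λ` satisfy a nontrivial relation of total degree at most `D` form a finite union of
subgroups, and if one of them contains `l_1, ..., l_r` for which `λ_1, ..., λ_n, l_1, ..., l_r` are
linearly independent over the rational numbers, then the inequality holds with `e = n + r + 1`. For
`n = 1` we obtain `(r + 1) (r + 3) ≤ 4 D`.

The proof. For a place of the field `ℚ̄(x)` and a space spanned by `u_1, ..., u_e`, the values of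
`∑ t_i u_i` and of its conjugates are constant for all `t` outside a finite union of subspaces; we
apply this to the Gauss norms of all irreducible polynomials and to the place at infinity which belongs
to the total degree. Hence either all `∑ t_i u_i` satisfy a relation of total degree `≤ D` over
`ℚ̄(x)`, or only those in finitely many proper subspaces (`Pool.Agent.Q147.GP.Total`). In the first
case the norms of the elements of the power `V ^ q` are polynomials in `x` of degree at most `q D`, up
to a common denominator, and hence `dim V ^ q ≤ binom (q D + n) n`. On the other hand, by the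
hyperplane case of the `p`-adic linear subgroup theorem (Waldschmidt, Roy), the dimension of `V ^ q`
grows by at least `h (e - h)` when `q` is replaced by `q + 1` (`Pool.Agent.Q147.GP.Grow`).
-/

set_option autoImplicit false

namespace Pool.Agent.Results.MP_c50dba_nt.LinearFibres

open Module

/-- `L` is the Iwasawa logarithm on the algebraic closure of `ℚ_p`. -/
structure IsIwasawaLog (p : ℕ) [Fact p.Prime] (L : PadicAlgCl p → PadicAlgCl p) : Prop where
  mul : ∀ x y : PadicAlgCl p, x ≠ 0 → y ≠ 0 → L (x * y) = L x + L y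
  prime : L ((p : ℕ) : PadicAlgCl p) = 0
  ser : ∀ z : PadicAlgCl p, ‖z‖ < 1 →
    HasSum (fun n : ℕ => (-1 : PadicAlgCl p) ^ n * z ^ (n + 1) / ((n : PadicAlgCl p) + 1))
      (L (1 + z))

/-- The space of all linear combinations with algebraic coefficients of `1` and of the values of `L`
at algebraic numbers. -/
noncomputable def LogForms {p : ℕ} [Fact p.Prime] (L : PadicAlgCl p → PadicAlgCl p) :
    Submodule (algebraicClosure ℚ (PadicAlgCl p)) (PadicAlgCl p) :=
  Submodule.span (algebraicClosure ℚ (PadicAlgCl p))
    ({1} ∪ {z | ∃ α : PadicAlgCl p, α ≠ 0 ∧ IsAlgebraic ℚ α ∧ z = L α})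

variable {p : ℕ} [Fact p.Prime]

/-- The numbers `x_1, ..., x_n, y` satisfy a nontrivial polynomial relation of total degree at most
`D` with algebraic coefficients. -/
def RelationOfDegree {n : ℕ} (D : ℕ) (x : Fin n → PadicAlgCl p) (y : PadicAlgCl p) : Prop :=
  ∃ f : MvPolynomial (Fin (n + 1)) (algebraicClosure ℚ (PadicAlgCl p)), f ≠ 0 ∧ f.totalDegree ≤ D ∧
    MvPolynomial.aeval (Fin.cons y x : Fin (n + 1) → PadicAlgCl p) f = 0

/-- The members of `LogForms L` which are linear combinations of `1, x_1, ..., x_n`. -/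
noncomputable def LinearPart (L : PadicAlgCl p → PadicAlgCl p) {n : ℕ} (x : Fin n → PadicAlgCl p) :
    Submodule (algebraicClosure ℚ (PadicAlgCl p)) (PadicAlgCl p) :=
  Submodule.span (algebraicClosure ℚ (PadicAlgCl p)) ({1} ∪ Set.range x) ⊓ LogForms L

/-- The number `z` is the logarithm of an algebraic number. -/
def IsLog (L : PadicAlgCl p → PadicAlgCl p) (z : PadicAlgCl p) : Prop :=
  ∃ α : PadicAlgCl p, α ≠ 0 ∧ IsAlgebraic ℚ α ∧ z = L α

open Pool.Agent.Y787 (QC HypC)
open Pool.Agent.W254.PA (LtE logs)
open Pool.Agent.Q147.GP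

/-- **Main result.** -/
theorem result (p : ℕ) [Fact p.Prime] (L : PadicAlgCl p → PadicAlgCl p) (hL : IsIwasawaLog p L) :
    (∀ n : ℕ, 0 < n → ∀ x : Fin n → PadicAlgCl p,
      AlgebraicIndependent (algebraicClosure ℚ (PadicAlgCl p)) x →
      ∀ (D : ℕ) (W : Submodule (algebraicClosure ℚ (PadicAlgCl p)) (PadicAlgCl p)),
        FiniteDimensional (algebraicClosure ℚ (PadicAlgCl p)) W → W ≤ LogForms L →
        ∃ S : Set (Submodule (algebraicClosure ℚ (PadicAlgCl p)) (PadicAlgCl p)), S.Finite ∧
          (∀ y, (y ∈ W ∧ RelationOfDegree D x y) ↔ ∃ U ∈ S, y ∈ U) ∧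
          ∀ U ∈ S, ∀ e q h : ℕ,
            e = finrank (algebraicClosure ℚ (PadicAlgCl p)) (U ⊔ LinearPart L x :
              Submodule _ (PadicAlgCl p)) → h ≤ e →
            q * (h * (e - h)) + e ≤ ((q + 1) * D + n).choose n ∧
            (n = 1 → h * (e - h) ≤ D)) ∧
    ∀ n : ℕ, 0 < n → ∀ x : Fin n → PadicAlgCl p,
      AlgebraicIndependent (algebraicClosure ℚ (PadicAlgCl p)) x → (∀ i, IsLog L (x i)) →
      ∀ (D : ℕ) (Λ : AddSubgroup (PadicAlgCl p)), Λ.FG → (∀ l ∈ Λ, IsLog L l) →
        ∃ S : Set (AddSubgroup (PadicAlgCl p)), S.Finite ∧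
          (∀ l, (l ∈ Λ ∧ RelationOfDegree D x l) ↔ ∃ Δ ∈ S, l ∈ Δ) ∧
          ∀ Δ ∈ S, ∀ (r : ℕ) (l : Fin r → PadicAlgCl p), (∀ i, l i ∈ Δ) →
            LinearIndependent ℚ (Fin.append x l) →
            (∀ q h : ℕ, h ≤ n + r + 1 →
              q * (h * (n + r + 1 - h)) + (n + r + 1) ≤ ((q + 1) * D + n).choose n) ∧
            (n = 1 → (r + 1) * (r + 3) ≤ 4 * D) := by
  have hL' : Pool.Agent.W245.PB.IsIwasawaLog p L := ⟨hL.mul, hL.prime, hL.ser⟩
  have := Pool.Agent.Y787.hypC_padic hL'
  have := isAlgClosed_QC (PadicAlgCl p)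
  refine ⟨fun n hn x hx D W hWf hW => ?_, fun n hn x hx hxL D Λ hΛ hΛL => ?_⟩
  · obtain ⟨UU, hUf, hUU, hb⟩ := total_main (Lt := LtE (logs L)) hn x hx D W hW
    have hrel : ∀ y, RelationOfDegree D x y ↔ RelT (k := QC (PadicAlgCl p)) x D y := fun y =>
      (relT_iff x D y).symm
    refine ⟨UU, hUf, fun y => by rw [hrel]; exact hUU y, ?_⟩
    intro U hU e q h he hh
    refine ⟨hb U hU e q h he hh, ?_⟩
    rintro rfl
    rcases Nat.eq_zero_or_pos e with rfl | he0
    · obtain rfl : h = 0 := Nat.le_zero.1 hh
      exact Nat.zero_le _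
    · exact choose_one_bound he0 fun q => hb U hU e q h he hh
  · obtain ⟨S, hSf, hS, hb⟩ := group_tot (Lt := LtE (logs L)) hn x hx
      (fun i => Pool.Agent.Y787.log_mem (hxL i)) D Λ hΛ
      (fun l hl => Pool.Agent.Y787.log_mem (hΛL l hl)) (fun r l hl hli =>
        Pool.Agent.Y787.li_consP hL' _ (fun j => by
          refine Fin.addCases (fun i => ?_) (fun i => ?_) j
          · rw [Fin.append_left]
            exact hxL i
          · rw [Fin.append_right]
            exact hΛL _ (hl i)) hli)
    have hrel : ∀ y, RelationOfDegree D x y ↔ RelT (k := QC (PadicAlgCl p)) x D y := fun y =>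
      (relT_iff x D y).symm
    refine ⟨S, hSf, fun l => by rw [hrel]; exact hS l, ?_⟩
    intro Δ hΔ r l hl hli
    refine ⟨hb Δ hΔ r l hl hli, ?_⟩
    rintro rfl
    refine arith_rank fun h hh => ?_
    have := choose_one_bound (e := 1 + r + 1) (D := D) (h := h) (by omega)
      (fun q => hb Δ hΔ r l hl hli q h (by omega))
    rwa [show r + 2 = 1 + r + 1 by omega]

end Pool.Agent.Results.MP_c50dba_nt.LinearFibres
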