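import Pool.Agent.Q147.MM.Inst
import Pool.Agent.Q147.MO.Psi
import Pool.Agent.Y787.PInst

/-!
# Monomials of all degrees in `p`-adic logarithms: linear independence outside a thin set

Let `l_q` (`q` prime) be `p`-adic logarithms of algebraic numbers, linearly independent over `ℚ`, and
let `l_n = ∏ l_q ^ v_q(n)` be the monomials in these numbers, numbered by the positive integers.  The
`p`-adic Schanuel conjecture implies that all `l_n` are linearly independent over the field `ℚ̄` of the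
algebraic numbers; Brumer's theorem says this for `n = 1` and `n` prime.  `Ω(n)` is the number of prime
factors of `n`, the degree of the monomial.  More generally the `l_q` may be linear forms in
logarithms, linearly independent with `1` over `ℚ̄`.

A set `B` of integers is called free if the `l_n` (`n ∈ B`) are linearly independent over `ℚ̄`, even
modulo the space of all linear forms in `1` and logarithms of algebraic numbers; more generally with
coefficients in the space spanned over `ℚ̄` by `1` and arbitrary numbers `w_1, ..., w_r` of the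
algebraic closure of `ℚ_p`.

(1) Let `ψ` be a nondecreasing function with `ψ(q) < q` (for instance `q ^ (1/K)` or `log q`).  There
is a set `X` with at most `2 (r+1)² (ψ(N)² + 1)` elements up to `N`, for all `N`, such that the set of
the integers `n = q_1 ⋯ q_k`, `k ≥ 2`, with `q_1 ⋯ q_j ≤ ψ(q_{j+1})` for `1 ≤ j < k` and without an
initial product `q_1 ⋯ q_j` (`1 ≤ j ≤ k`) in `X`, is free.  If `ψ(q)` lies between `q ^ (1/M)` and
`q ^ (1/3)` for large `q`, then this set contains almost all integers with at most `k` prime factors,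
for all `k` at the same time.

(2) There is a free set which contains almost all integers with at most `k` prime factors, for
all `k`, and at least `c N / (log N) ^ (9/40)` integers up to `N` (Brumer: `N / log N`; conjecture:
`N`).

The proof is the one of the complex case (`MP_60829e_nt.MonomialsOfAllDegrees`), with the `p`-adic
version of the hyperplane case of the linear subgroup theorem.
-/

set_option autoImplicit false

namespace Pool.Agent.Results.MP_c50dba_nt.MonomialsOfAllDegrees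

open Filter Topology
open Pool.Agent.Q147.MM Pool.Agent.Q147.MO
open Pool.Agent.Y787 (QC mem_QC)

/-- `L` is the Iwasawa logarithm on the algebraic closure of `ℚ_p`. -/
structure IsIwasawaLog (p : ℕ) [Fact p.Prime] (L : PadicAlgCl p → PadicAlgCl p) : Prop where
  mul : ∀ x y : PadicAlgCl p, x ≠ 0 → y ≠ 0 → L (x * y) = L x + L y
  prime : L ((p : ℕ) : PadicAlgCl p) = 0
  ser : ∀ z : PadicAlgCl p, ‖z‖ < 1 →
    HasSum (fun n : ℕ => (-1 : PadicAlgCl p) ^ n * z ^ (n + 1) / ((n : PadicAlgCl p) + 1))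
      (L (1 + z))

variable {p : ℕ} [Fact p.Prime]

/-- algebraic over the rational numbers -/
abbrev Alg (z : PadicAlgCl p) : Prop := IsAlgebraic ℚ z

/-- `z = γ + β₁ L(α₁) + … + β_m L(α_m)` with algebraic `γ`, `β_i` and `α_i ≠ 0`: `z` is a linear form
in `1` and logarithms of algebraic numbers, with algebraic coefficients -/
def LinForm (L : PadicAlgCl p → PadicAlgCl p) (z : PadicAlgCl p) : Prop :=
  ∃ (m : ℕ) (γ : PadicAlgCl p) (β α : Fin m → PadicAlgCl p), Alg γ ∧ (∀ i, Alg (β i)) ∧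
    (∀ i, α i ≠ 0 ∧ Alg (α i)) ∧ z = γ + ∑ i, β i * L (α i)

/-- the monomial `∏ l_q ^ v_q(n)` over the prime factors `q` of `n` -/
noncomputable def mono (l : ℕ → PadicAlgCl p) (n : ℕ) : PadicAlgCl p :=
  ∏ q ∈ n.primeFactors, l q ^ n.factorization q

/-- the number of the `n ∈ B` with `1 ≤ n ≤ N` -/
noncomputable def count (B : Set ℕ) (N : ℕ) : ℕ := Set.ncard {n | n ∈ B ∧ 1 ≤ n ∧ n ≤ N}

/-- number of prime factors, with multiplicity -/
abbrev Om (n : ℕ) : ℕ := ArithmeticFunction.cardFactors n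

/-- the `l q` (`q` prime) are linear forms in logarithms of algebraic numbers, and `1` and the `l q`
are linearly independent over the field of algebraic numbers -/
def Free (L : PadicAlgCl p → PadicAlgCl p) (l : ℕ → PadicAlgCl p) : Prop :=
  (∀ q : ℕ, q.Prime → LinForm L (l q)) ∧
  ∀ F : Finset ℕ, (∀ q ∈ F, q.Prime) → ∀ (γ : PadicAlgCl p) (β : ℕ → PadicAlgCl p), Alg γ →
    (∀ q, Alg (β q)) → γ + ∑ q ∈ F, β q * l q = 0 → γ = 0 ∧ ∀ q ∈ F, β q = 0

open Pool.Agent.W254.PA (LtE logs)

variable {L : PadicAlgCl p → PadicAlgCl p}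

theorem smul_eq {γ : PadicAlgCl p} (hγ : Alg γ) (z : PadicAlgCl p) :
    γ * z = (⟨γ, mem_QC.2 hγ⟩ : QC (PadicAlgCl p)) • z := by
  rw [Algebra.smul_def]
  rfl

theorem LinForm.mem {z : PadicAlgCl p} (h : LinForm L z) :
    z ∈ (LtE (logs L) : Submodule (QC (PadicAlgCl p)) (PadicAlgCl p)) := by
  obtain ⟨m, γ, β, α, hγ, hβ, hα, rfl⟩ := h
  refine Submodule.add_mem _ ?_ (Submodule.sum_mem _ fun i _ => ?_)
  · rw [← mul_one γ, smul_eq hγ]
    exact Submodule.smul_mem _ _ (Submodule.subset_span (Or.inl rfl))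
  · rw [smul_eq (hβ i)]
    exact Submodule.smul_mem _ _
      (Pool.Agent.Y787.log_mem ⟨α i, (hα i).1, (hα i).2, rfl⟩)

theorem mono_eq (l : ℕ → PadicAlgCl p) (n : ℕ) : mono l n = lam l n := by
  rw [mono, lam, Finsupp.prod, Nat.support_factorization]

theorem count_eq (B : Set ℕ) (N : ℕ) : count B N = cnt B N := by
  rw [count, cnt, ← Set.ncard_coe_finset]
  congr 1
  ext n
  rw [Finset.mem_coe, mem_upto]
  exact and_comm

theorem free_of_log (hL : Pool.Agent.W245.PB.IsIwasawaLog p L) {l : ℕ → PadicAlgCl p}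
    (hl : ∀ q : ℕ, q.Prime → ∃ α : PadicAlgCl p, α ≠ 0 ∧ Alg α ∧ l q = L α)
    (hli : LinearIndependent ℚ (fun q : Nat.Primes => l q)) : Free L l := by
  classical
  refine ⟨fun q hq => ?_, fun F hF γ β hγ hβ h => ?_⟩
  · obtain ⟨α, h1, h2, h3⟩ := hl q hq
    exact ⟨1, 0, fun _ => 1, fun _ => α, isAlgebraic_zero, fun _ => isAlgebraic_one,
      fun _ => ⟨h1, h2⟩, by simp [h3]⟩
  have h1 : LinearIndepOn (QC (PadicAlgCl p)) (lam l) Q1 := by
    refine li_of_fin l fun n q hinj hq => ?_
    refine Pool.Agent.Y787.li_consP hL (fun i => l (q i)) (fun i => hl _ (hq i)) ?_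
    exact hli.comp (fun i => (⟨q i, hq i⟩ : Nat.Primes)) fun i j hij =>
      hinj (congrArg Subtype.val hij)
  let c : ℕ → QC (PadicAlgCl p) := fun q =>
    if q = 1 then ⟨γ, mem_QC.2 hγ⟩ else ⟨β q, mem_QC.2 (hβ q)⟩
  have hF1 : (1 : ℕ) ∉ F := fun h => Nat.not_prime_one (hF 1 h)
  have h2 : LinearIndepOn (QC (PadicAlgCl p)) (lam l) ((insert 1 F : Finset ℕ) : Set ℕ) := by
    refine h1.mono fun q hq => ?_
    rw [Finset.mem_coe, Finset.mem_insert] at hq
    exact hq.imp id (hF q)
  have h3 := linearIndepOn_finset_iff.1 h2 c (by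
    rw [Finset.sum_insert hF1, ← h]
    congr 1
    · rw [lam_one, Algebra.smul_def, mul_one]
      simp only [c, if_true]
      rfl
    · refine Finset.sum_congr rfl fun q hq => ?_
      rw [lam_prime l (hF q hq), Algebra.smul_def]
      simp only [c, if_neg (hF q hq).ne_one]
      rfl)
  refine ⟨?_, fun q hq => ?_⟩
  · have h4 := h3 1 (Finset.mem_insert_self _ _)
    simp only [c, if_true] at h4
    exact congrArg Subtype.val h4
  · have h4 := h3 q (Finset.mem_insert_of_mem hq)
    simp only [c, if_neg (hF q hq).ne_one] at h4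
    exact congrArg Subtype.val h4

theorem Free.good {l : ℕ → PadicAlgCl p} (h : Free L l) :
    Good (LtE (logs L) : Submodule (QC (PadicAlgCl p)) (PadicAlgCl p)) l where
  mem q hq := (h.1 q hq).mem
  li := by
    classical
    refine li_of_fin l fun n q hinj hp => ?_
    rw [Fintype.linearIndependent_iff]
    intro g hg
    rw [Fin.sum_univ_succ] at hg
    simp only [Fin.cons_zero, Fin.cons_succ] at hg
    let β : ℕ → PadicAlgCl p := fun t => if ht : ∃ i, q i = t then (g ht.choose.succ : PadicAlgCl p)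
      else 0
    have hβp : ∀ i, β (q i) = (g i.succ : PadicAlgCl p) := by
      intro i
      have ht : ∃ j, q j = q i := ⟨i, rfl⟩
      have h1 : ht.choose = i := hinj ht.choose_spec
      simp only [β, dif_pos ht, h1]
    have hβ : ∀ t, Alg (β t) := by
      intro t
      by_cases ht : ∃ i, q i = t
      · simp only [β, dif_pos ht]
        exact mem_QC.1 (g _).2
      · simp only [β, dif_neg ht]
        exact isAlgebraic_zero
    have h2 := h.2 (Finset.univ.image q) (fun t ht => by
      obtain ⟨i, _, rfl⟩ := Finset.mem_image.1 ht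
      exact hp i) (g 0 : PadicAlgCl p) β (mem_QC.1 (g 0).2) hβ (by
      rw [Finset.sum_image (fun i _ j _ hij => hinj hij), ← hg, Algebra.smul_def, mul_one]
      congr 1
      refine Finset.sum_congr rfl fun i _ => ?_
      rw [hβp, Algebra.smul_def]
      rfl)
    intro i
    refine Fin.cases ?_ (fun j => ?_) i
    · exact Subtype.ext h2.1
    · refine Subtype.ext ?_
      rw [← hβp j]
      exact h2.2 _ (Finset.mem_image_of_mem q (Finset.mem_univ j))

/-- the integers `q_1 ⋯ q_k`, `k ≥ 0`, where the `q_j` are primes with `q_1 ⋯ q_j ≤ ψ q_{j+1}` for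
`0 ≤ j < k` and no initial product `q_1 ⋯ q_j` (`1 ≤ j ≤ k`) belongs to `X` -/
inductive Lacunary (ψ : ℕ → ℕ) (X : Set ℕ) : ℕ → Prop
  | one : Lacunary ψ X 1
  | mul (a q : ℕ) : Lacunary ψ X a → q.Prime → a ≤ ψ q → a * q ∉ X → Lacunary ψ X (a * q)

theorem lac_iff (ψ : ℕ → ℕ) (X : Set ℕ) (n : ℕ) : Lacunary ψ X n ↔ Lac (CP ψ) X n := by
  constructor
  · intro h
    induction h with
    | one => exact Lac.one
    | mul a q _ hq hc hX ih => exact Lac.mul a q ih hq hc hX
  · intro h
    induction h with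
    | one => exact Lacunary.one
    | mul a q _ hq hc hX ih => exact Lacunary.mul a q ih hq hc hX

/-- `B` contains almost all integers with at most `k` prime factors, for every `k ≥ 2` -/
def AlmostAll (B : Set ℕ) : Prop := ∀ k : ℕ, 2 ≤ k →
  Tendsto (fun N : ℕ => (count {n | n ∈ B ∧ Om n ≤ k} N : ℝ) / count {n | Om n ≤ k} N) atTop (𝓝 1)

/-- the monomials `l_n`, `n ∈ B`, are linearly independent, also modulo linear forms in logarithms,
with coefficients in the space spanned by `1` and the `w i` over the algebraic numbers: a sum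
`∑ u_n l_n` over a finite subset of `B`, where the `u_n = α_n + ∑ β_{n,i} w_i` are not all zero, is
not a linear form in logarithms -/
def FreeSet (L : PadicAlgCl p → PadicAlgCl p) {r : ℕ} (l : ℕ → PadicAlgCl p)
    (w : Fin r → PadicAlgCl p) (B : Set ℕ) : Prop :=
  ∀ F : Finset ℕ, (∀ n ∈ F, n ∈ B) → ∀ (α : ℕ → PadicAlgCl p) (β : ℕ → Fin r → PadicAlgCl p),
    (∀ n, Alg (α n)) → (∀ n i, Alg (β n i)) → (∃ n ∈ F, α n + ∑ i, β n i * w i ≠ 0) →
    ¬ LinForm L (∑ n ∈ F, (α n + ∑ i, β n i * w i) * mono l n)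

theorem freeSet_of {r : ℕ} {l : ℕ → PadicAlgCl p} {w : Fin r → PadicAlgCl p} {B : Set ℕ}
    (h : FreeOn (LtE (logs L) : Submodule (QC (PadicAlgCl p)) (PadicAlgCl p)) l
      (Submodule.span (QC (PadicAlgCl p)) (Set.range w)) B) : FreeSet L l w B := by
  intro F hF α β hα hβ h0 hLin
  obtain ⟨n, hn, hne⟩ := h0
  refine hne (h F hF (fun n => α n + ∑ i, β n i * w i) (fun n _ => ?_) ?_ n hn)
  · refine Submodule.add_mem _ (Submodule.mem_sup_right ?_) (Submodule.mem_sup_left ?_)
    · rw [← mul_one (α n), smul_eq (hα n)]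
      exact Submodule.smul_mem _ _ (Submodule.mem_span_singleton_self 1)
    · refine Submodule.sum_mem _ fun i _ => ?_
      rw [smul_eq (hβ n i)]
      exact Submodule.smul_mem _ _ (Submodule.subset_span ⟨i, rfl⟩)
  · have h1 := hLin.mem
    simp only [mono_eq] at h1
    exact h1

theorem almostAll_of {B : Set ℕ}
    (h : ∀ k : ℕ, Tendsto (fun N : ℕ => (cnt (Sk (k + 2) \ B) N : ℝ) / cnt (Sk (k + 2)) N) atTop
      (𝓝 0)) : AlmostAll B := by
  intro k hk
  obtain ⟨j, rfl⟩ := Nat.exists_eq_add_of_le' hk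
  refine (dens_one _ _ (Sk_pos (j + 2)) (h j)).congr fun N => ?_
  rw [count, count, cnt, cnt, ← Set.ncard_coe_finset, ← Set.ncard_coe_finset]
  congr 3
  · ext n
    rw [Finset.mem_coe, mem_upto]
    constructor
    · rintro ⟨h1, h2, h3⟩
      exact ⟨⟨h2, h3.2⟩, h1⟩
    · rintro ⟨⟨h1, h2⟩, h3⟩
      exact ⟨h3, h1, Nat.one_le_iff_ne_zero.1 h3.1, h2⟩
  · ext n
    rw [Finset.mem_coe, mem_upto]
    constructor
    · rintro ⟨h1, h2⟩
      exact ⟨h2.2, h1⟩
    · rintro ⟨h1, h2⟩
      exact ⟨h2, Nat.one_le_iff_ne_zero.1 h2.1, h1⟩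

/-- **Main result.** -/
theorem result (p : ℕ) [Fact p.Prime] (L : PadicAlgCl p → PadicAlgCl p) (hL : IsIwasawaLog p L) :
    -- logarithms of algebraic numbers, linearly independent over the rational numbers (Brumer)
    (∀ l : ℕ → PadicAlgCl p, (∀ q : ℕ, q.Prime → ∃ α : PadicAlgCl p, α ≠ 0 ∧ Alg α ∧ l q = L α) →
      LinearIndependent ℚ (fun q : Nat.Primes => l q) → Free L l) ∧
    ∀ l : ℕ → PadicAlgCl p, Free L l → ∀ (r : ℕ) (w : Fin r → PadicAlgCl p),
      -- (1) a thin set of exceptions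
      (∀ ψ : ℕ → ℕ, Monotone ψ → (∀ q : ℕ, q.Prime → ψ q < q) → ∃ X : Set ℕ,
        (∀ N : ℕ, count X N ≤ 2 * (r + 1) ^ 2 * (ψ N ^ 2 + 1)) ∧
        FreeSet L l w {n | Lacunary ψ X n ∧ 2 ≤ Om n} ∧
        ((∃ M : ℕ, ∀ᶠ q : ℕ in atTop, ψ q ^ 3 ≤ q ∧ q ≤ ψ q ^ M) →
          AlmostAll {n | Lacunary ψ X n ∧ 2 ≤ Om n})) ∧
      -- (2) one large set for all degrees
      (∃ B : Set ℕ, (∀ n ∈ B, 2 ≤ Om n) ∧ AlmostAll B ∧
        (∃ c : ℝ, 0 < c ∧ ∃ N₀ : ℕ, ∀ N : ℕ, N₀ ≤ N →
          c * (N / (Real.log N) ^ (9 / 40 : ℝ)) ≤ (count B N : ℝ)) ∧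
        FreeSet L l w B) := by
  have hL' : Pool.Agent.W245.PB.IsIwasawaLog p L := ⟨hL.mul, hL.prime, hL.ser⟩
  have := Pool.Agent.Y787.hypC_padic hL'
  refine ⟨fun l hl hli => free_of_log hL' hl hli, fun l hl r w => ?_⟩
  let W : Submodule (QC (PadicAlgCl p)) (PadicAlgCl p) :=
    Submodule.span (QC (PadicAlgCl p)) (Set.range w)
  have hfin : FiniteDimensional (QC (PadicAlgCl p)) W :=
    FiniteDimensional.span_of_finite _ (Set.finite_range _)
  have hr : Module.finrank (QC (PadicAlgCl p)) W ≤ r := by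
    have := finrank_range_le_card (R := QC (PadicAlgCl p)) w
    simpa [Set.finrank, W] using this
  constructor
  · intro ψ hψ hψ1
    obtain ⟨X, hX1, hX2, hX3⟩ := mainPsi hl.good W ψ hψ hψ1
    have hset : {n | Lacunary ψ X n ∧ 2 ≤ Om n} =
        {n | Lac (CP ψ) X n ∧ 2 ≤ ArithmeticFunction.cardFactors n} := by
      ext n
      simp only [Set.mem_setOf_eq, lac_iff]
    refine ⟨X, fun N => ?_, ?_, fun hM => ?_⟩
    · rw [count_eq]
      refine (hX1 N).trans (Nat.mul_le_mul_right _ (Nat.mul_le_mul_left 2 ?_))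
      exact Nat.pow_le_pow_left (by omega) 2
    · rw [hset]
      exact freeSet_of hX2
    · rw [hset]
      exact almostAll_of (hX3 hM)
  · obtain ⟨B, hB1, hB2, ⟨c, hc, N0, hN0⟩, hB4⟩ := mainOne hl.good W
    refine ⟨B, hB1, almostAll_of hB2, ⟨c, hc, N0, fun N hN => ?_⟩, freeSet_of hB4⟩
    rw [count_eq]
    exact hN0 N hN

end Pool.Agent.Results.MP_c50dba_nt.MonomialsOfAllDegrees
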