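import Pool.Agent.Q147.LG.PInst

/-!
# `p`-adic Schanuel conjecture: relations of bounded degree between logarithms and the square root
of the number of monomials

Let `W` be a space of dimension `N` over the field `ℚ̄` of algebraic numbers which consists of linear
forms, with algebraic coefficients, in `1` and `p`-adic logarithms of algebraic numbers.

(1) Let `x_1, ..., x_n` be arbitrary elements of the algebraic closure of `ℚ_p`.  Consider the tuples
`y ∈ W ^ m` such that `(x, y)` satisfies a nontrivial polynomial relation over `ℚ̄` with exponents in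
a finite set `A ⊆ ℕ ^ (n + m)` which is closed downwards, while `x` together with any `s` independent
linear combinations of the `y_i` satisfies none of degree at most `D`.  The earlier result
`MP_c50dba_nt.BoundedDegreeStrata` (for the set `A` of all exponents of degree at most `D`) says that
they lie in an algebraic subset of dimension at most `(m - 1 - s) N + m (m - 1) + |A| - 1`.  We
replace the number `|A|` of monomials essentially by its square root: for every finite set `B` closed
downwards and every `h ≥ 1` with `m h ≤ |B|` the dimension is at most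

`(m - 1 - s) N + max (m (m h - 1) + ⌊(|A + B| - |B|) / h⌋, m (m - 1) + |B| - 1)`

(`A` and `B` of degree at most `D`).

(2) The tuples `y ∈ W ^ m`, `m ≥ 2`, with `1, y_1, ..., y_m` linearly independent over `ℚ̄` which
satisfy a nontrivial relation of degree at most `a_i` in `Y_i` have dimension less than
`(m - 2) N + (m ^ 2 + (m + 1) 2 ^ (m - 1)) ∏ (⌊√a_i⌋ + 1)`.

(3) For pairs with relations of total degree at most `D` the dimension is at most `4 D` instead of
`(D ^ 2 + 3 D + 4) / 2`.

All parts contain the corresponding bounds for the number of tuples of logarithms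
`y_i = ∑ a_ij l_j` with integers `|a_ij| ≤ H`.

The proof.  If the theorem fails there are a tuple `y`, a relation `f (x, y) = 0` and `e` independent
tangent vectors `dy ∈ W ^ m` with `∑ (∂f/∂Y_i)(x, y) dy_i = - (∂f) (x, y)`, where `∂f` is a polynomial
with exponents in `A`.  We multiply these relations by values `χ_1, ..., χ_h` at `(x, y)` of
polynomials with exponents in `B` whose products with a basis of the span of the `(∂f/∂Y_i)(x, y)` are
linearly independent, and compare the dimension at most `|A + B| - |B|` of the space of the right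
hand sides with the hyperplane case of the linear subgroup theorem (Waldschmidt, Roy) with `h m`
coefficients (`Pool.Agent.Q147.LG`).
-/

set_option autoImplicit false

open scoped Pointwise

namespace Pool.Agent.Results.MP_c50dba_nt.SquareRootStrata

/-- `L` is the Iwasawa logarithm on the algebraic closure of `ℚ_p`. -/
structure IsIwasawaLog (p : ℕ) [Fact p.Prime] (L : PadicAlgCl p → PadicAlgCl p) : Prop where
  mul : ∀ x y : PadicAlgCl p, x ≠ 0 → y ≠ 0 → L (x * y) = L x + L y
  prime : L ((p : ℕ) : PadicAlgCl p) = 0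
  ser : ∀ z : PadicAlgCl p, ‖z‖ < 1 →
    HasSum (fun n : ℕ => (-1 : PadicAlgCl p) ^ n * z ^ (n + 1) / ((n : PadicAlgCl p) + 1))
      (L (1 + z))

/-- The space of all linear combinations with algebraic coefficients of `1` and of the values of `L`
at algebraic numbers. -/
noncomputable def LogForms {p : ℕ} [Fact p.Prime] (L : PadicAlgCl p → PadicAlgCl p) :
    Submodule (algebraicClosure ℚ (PadicAlgCl p)) (PadicAlgCl p) :=
  Submodule.span (algebraicClosure ℚ (PadicAlgCl p))
    ({1} ∪ {z | ∃ α : PadicAlgCl p, α ≠ 0 ∧ IsAlgebraic ℚ α ∧ z = L α})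

variable {p : ℕ} [Fact p.Prime]

/-- The numbers `z i` satisfy a nontrivial polynomial relation with algebraic coefficients whose
exponents belong to `A`. -/
def RelationIn {σ : Type} (A : Finset (σ →₀ ℕ)) (z : σ → PadicAlgCl p) : Prop :=
  ∃ f : MvPolynomial σ (algebraicClosure ℚ (PadicAlgCl p)), f ≠ 0 ∧ f.support ⊆ A ∧
    MvPolynomial.aeval z f = 0

/-- The numbers `z i` satisfy a nontrivial polynomial relation with algebraic coefficients of degree
at most `a i` in the `i`-th variable. -/
def RelationOfDegrees {σ : Type} (a : σ → ℕ) (z : σ → PadicAlgCl p) : Prop :=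
  ∃ f : MvPolynomial σ (algebraicClosure ℚ (PadicAlgCl p)), f ≠ 0 ∧ (∀ i, f.degreeOf i ≤ a i) ∧
    MvPolynomial.aeval z f = 0

/-- The numbers `z i` satisfy a nontrivial polynomial relation of total degree at most `D` with
algebraic coefficients. -/
def RelationOfDegree {σ : Type} (D : ℕ) (z : σ → PadicAlgCl p) : Prop :=
  ∃ f : MvPolynomial σ (algebraicClosure ℚ (PadicAlgCl p)), f ≠ 0 ∧ f.totalDegree ≤ D ∧
    MvPolynomial.aeval z f = 0

/-- The numbers `x i` together with `s` linear combinations of the `y j` with linearly independent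
algebraic coefficient vectors never satisfy a nontrivial relation of degree at most `D`. -/
def Free (D s : ℕ) {n m : ℕ} (x : Fin n → PadicAlgCl p) (y : Fin m → PadicAlgCl p) : Prop :=
  ∀ u : Fin s → Fin m → algebraicClosure ℚ (PadicAlgCl p),
    LinearIndependent (algebraicClosure ℚ (PadicAlgCl p)) u →
      ¬ RelationOfDegree D (Sum.elim x fun k => ∑ j, (u k j : PadicAlgCl p) * y j)

/-- The tuples with property `R` have dimension at most `q`: first, for every space `W` of linear
forms in `p`-adic logarithms of finite dimension `N`, the tuples `y ∈ W ^ m` with property `R` lie in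
an algebraic subset of dimension at most `q N`, that is, any `q N + 1` linear forms satisfy a
nontrivial polynomial relation at all of them; secondly, for `ℚ`-linearly independent logarithms
`l_1, ..., l_N` of algebraic numbers there are at most `κ H ^ (q N)` integer matrices `a` with entries
at most `H` for which the tuple `∑ a_ij l_j` has property `R`. -/
def DimensionAtMost (L : PadicAlgCl p → PadicAlgCl p) {m : ℕ} (q : ℕ → ℕ)
    (R : (Fin m → PadicAlgCl p) → Prop) : Prop :=
  (∀ (W : Submodule (algebraicClosure ℚ (PadicAlgCl p)) (PadicAlgCl p))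
      [FiniteDimensional (algebraicClosure ℚ (PadicAlgCl p)) W], W ≤ LogForms L →
    ∀ φ : Fin (q (Module.finrank (algebraicClosure ℚ (PadicAlgCl p)) W) + 1) →
      ((Fin m → W) →ₗ[algebraicClosure ℚ (PadicAlgCl p)] algebraicClosure ℚ (PadicAlgCl p)),
    ∃ P : MvPolynomial (Fin (q (Module.finrank (algebraicClosure ℚ (PadicAlgCl p)) W) + 1))
        (algebraicClosure ℚ (PadicAlgCl p)), P ≠ 0 ∧
      ∀ y : Fin m → W, R (fun i => (y i : PadicAlgCl p)) →
        MvPolynomial.eval (fun k => φ k y) P = 0) ∧
  ∀ (N : ℕ) (l : Fin N → PadicAlgCl p),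
    (∀ j, ∃ α : PadicAlgCl p, α ≠ 0 ∧ IsAlgebraic ℚ α ∧ l j = L α) → LinearIndependent ℚ l →
    ∃ κ : ℕ, ∀ H : ℕ, 1 ≤ H →
      Set.ncard {a : Fin m → Fin N → ℤ | (∀ i j, |a i j| ≤ H) ∧
        R (fun i => ∑ j, (a i j : PadicAlgCl p) * l j)} ≤ κ * H ^ q N

open Pool.Agent.Q147.LG in
theorem of_thin {L : PadicAlgCl p → PadicAlgCl p} (hL : Pool.Agent.W245.PB.IsIwasawaLog p L)
    {m : ℕ} {q q' : ℕ → ℕ} {R S : (Fin m → PadicAlgCl p) → Prop}
    (h : Thin (Pool.Agent.W254.PA.LtE (Pool.Agent.W254.PA.logs L)) q {y | S y})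
    (hq : ∀ M, q M ≤ q' M + 1) (hR : ∀ y, R y → S y) : DimensionAtMost L q' R := by
  refine ⟨fun W _ hW φ => ?_, fun N l hl hli => ?_⟩
  · obtain ⟨P, h1, h2⟩ := dimP h hq W hW φ
    exact ⟨P, h1, fun y hy => h2 y (hR _ hy)⟩
  · obtain ⟨κ, hκ⟩ := countP hL h hq l hl hli
    refine ⟨κ, fun H hH => le_trans (Set.ncard_le_ncard ?_ ?_) (hκ H hH)⟩
    · rintro a ⟨h1, h2⟩
      exact ⟨h1, hR _ h2⟩
    · exact (Pool.Agent.Y787.HS.box_finite m N H).subset fun a ha => ha.1

/-- **Main result.** -/
theorem result (p : ℕ) [Fact p.Prime] (L : PadicAlgCl p → PadicAlgCl p) (hL : IsIwasawaLog p L) :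
    (∀ (n m s D h c : ℕ) (A B : Finset ((Fin n ⊕ Fin m) →₀ ℕ)), s < m → 0 < h →
      IsLowerSet (A : Set ((Fin n ⊕ Fin m) →₀ ℕ)) → IsLowerSet (B : Set ((Fin n ⊕ Fin m) →₀ ℕ)) →
      (∀ t ∈ A, t.degree ≤ D) → (∀ t ∈ B, t.degree ≤ D) →
      m * h ≤ B.card → m * (m * h - 1) + ((A + B).card - B.card) / h ≤ c →
      m * (m - 1) + B.card ≤ c + 1 →
      ∀ x : Fin n → PadicAlgCl p, DimensionAtMost L (fun N => (m - 1 - s) * N + c)
        (fun y => RelationIn A (Sum.elim x y) ∧ Free D s x y)) ∧
    (∀ (m : ℕ) (a : Fin m → ℕ), 1 < m → DimensionAtMost L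
        (fun N => (m - 2) * N + (m ^ 2 + (m + 1) * 2 ^ (m - 1)) * ∏ i, (Nat.sqrt (a i) + 1) - 1)
        (fun y => LinearIndependent (algebraicClosure ℚ (PadicAlgCl p))
          (Fin.cons 1 y : Fin (m + 1) → PadicAlgCl p) ∧ RelationOfDegrees a y)) ∧
    ∀ D : ℕ, 1 ≤ D → DimensionAtMost L (m := 2) (fun _ => 4 * D)
        (fun y => LinearIndependent (algebraicClosure ℚ (PadicAlgCl p))
          (Fin.cons 1 y : Fin 3 → PadicAlgCl p) ∧ RelationOfDegree D y) := by
  have hL' : Pool.Agent.W245.PB.IsIwasawaLog p L := ⟨hL.mul, hL.prime, hL.ser⟩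
  have := Pool.Agent.Y787.hypC_padic hL'
  refine ⟨fun n m s D h c A B hs hh hA hB hAD hBD hmB h1 h2 x => ?_, fun m a hm => ?_,
    fun D hD => ?_⟩
  · refine of_thin hL' (Pool.Agent.Q147.LG.thin_strat (c := c + 1) hs hh A B (A + B)
      (fun s hs t ht => hA ht hs) (fun s hs t ht => hB ht hs) hAD hBD
      (fun s hs t ht => Finset.add_mem_add hs ht) hmB x ?_ h2) (fun M => le_rfl) fun y hy => hy
    rw [mul_comm h m]
    omega
  · refine of_thin hL' (Pool.Agent.Q147.LG.thin_dep_box hm a) (fun M => ?_) fun y hy => ?_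
    · rw [Pool.Agent.Q147.LG.con, Pool.Agent.Q147.LG.num]
      omega
    · obtain ⟨hy1, f, hf0, hfa, hf⟩ := hy
      refine ⟨hy1, f, hf0, fun s hs => ?_, hf⟩
      rw [Pool.Agent.Q147.LG.mem_box]
      exact fun i => (MvPolynomial.degreeOf_le_iff.1 (hfa i)) s hs
  · refine of_thin hL' (Pool.Agent.Q147.LG.thin_pairs hD) (fun M => le_rfl) fun y hy => ?_
    obtain ⟨hy1, f, hf0, hfD, hf⟩ := hy
    exact ⟨hy1, f, hf0, Pool.Agent.Q147.LG.support_tri f hfD, hf⟩

end Pool.Agent.Results.MP_c50dba_nt.SquareRootStrata
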